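import Pool.Agent.Lib.MP_2d002d_gt.PM.Interfaces
import Pool.Agent.Lib.MP_2c1b2b_gt.H32.PL

/-!
# Project PM, module LY: properties of the densities `ly S`
-/

set_option autoImplicit false

open MeasureTheory Set Filter Topology
open scoped ENNReal Pointwise

namespace Pool.Agent.Lib.MP_2d002d_gt.PM.H47

lemma prof_mono {S : ℝ → ℝ} (hS : Prof S) : MonotoneOn S (Ici 0) := by
  have hd : Differentiable ℝ S := hS.smooth.differentiable (by norm_num)
  refine monotoneOn_of_deriv_nonneg (convex_Ici 0) hd.continuous.continuousOn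
    hd.differentiableOn ?_
  intro x hx
  rw [interior_Ici] at hx
  exact hS.d1 x (le_of_lt hx)

lemma prof_concave {S : ℝ → ℝ} (hS : Prof S) : ConcaveOn ℝ (Ici 0) S := by
  have hd : Differentiable ℝ S := hS.smooth.differentiable (by norm_num)
  have hd2 : Differentiable ℝ (deriv S) := by
    have h2 : ContDiff ℝ (1 + 1) S := by
      have := hS.smooth
      norm_num
      exact this
    exact ((contDiff_succ_iff_deriv.mp h2).2.2).differentiable (by norm_num)
  refine concaveOn_of_deriv2_nonpos (convex_Ici 0) hd.continuous.continuousOn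
    hd.differentiableOn hd2.differentiableOn ?_
  intro x hx
  rw [interior_Ici] at hx
  have := hS.d2 x (le_of_lt hx)
  simpa using this

lemma ly_eq (S : ℝ → ℝ) (x : ℝ) :
    ly S x = ∫⁻ z : ℝ, (Ioi (0 : ℝ)).indicator
      (fun z => if |x| ≤ S z then ENNReal.ofReal (Real.exp (-z)) else 0) z := by
  unfold ly
  rw [lintegral_indicator measurableSet_Ioi]

lemma meas_fun {S : ℝ → ℝ} (hS : Prof S) (x : ℝ) : Measurable ((Ioi (0 : ℝ)).indicator
      (fun z => if |x| ≤ S z then ENNReal.ofReal (Real.exp (-z)) else 0)) := by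
  refine Measurable.indicator ?_ measurableSet_Ioi
  refine Measurable.ite ?_ ?_ measurable_const
  · exact measurableSet_le measurable_const hS.smooth.continuous.measurable
  · fun_prop

lemma lint_exp : ∫⁻ z in Ioi (0 : ℝ), ENNReal.ofReal (Real.exp (-z)) = 1 := by
  rw [← ofReal_integral_eq_lintegral_ofReal]
  · rw [integral_exp_neg_Ioi_zero, ENNReal.ofReal_one]
  · exact integrableOn_exp_neg_Ioi 0
  · exact Filter.Eventually.of_forall (fun z => (Real.exp_pos _).le)

theorem ly : LY_S := by
  intro S hS
  refine ⟨?_, ?_, ?_, ?_, ?_, ?_⟩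
  · -- measurable
    unfold PM.ly
    refine Measurable.lintegral_prod_right' (f := fun p : ℝ × ℝ =>
      if |p.1| ≤ S p.2 then ENNReal.ofReal (Real.exp (-p.2)) else 0) ?_
    refine Measurable.ite ?_ ?_ measurable_const
    · exact measurableSet_le (by fun_prop) (hS.smooth.continuous.measurable.comp measurable_snd)
    · fun_prop
  · intro x
    unfold PM.ly
    rw [abs_neg]
  · intro t ht0 ht1 x y
    rw [ly_eq, ly_eq, ly_eq]
    refine Pool.Agent.Lib.MP_2c1b2b_gt.H32.pl_line t ht0 ht1 _ _ _ (meas_fun hS x)
      (meas_fun hS y) (meas_fun hS _) ?_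
    intro z z'
    have h1t : 0 < 1 - t := by linarith
    by_cases hz : 0 < z ∧ |x| ≤ S z
    · by_cases hz' : 0 < z' ∧ |y| ≤ S z'
      · have hpos : 0 < (1 - t) • z + t • z' := by
          simp only [smul_eq_mul]
          have := mul_pos h1t hz.1
          have := mul_pos ht0 hz'.1
          linarith
        have hS2 : |(1 - t) • x + t • y| ≤ S ((1 - t) • z + t • z') := by
          have h3 := (prof_concave hS).2 (mem_Ici.mpr hz.1.le) (mem_Ici.mpr hz'.1.le) h1t.le ht0.le
            (by ring)
          calc |(1 - t) • x + t • y| ≤ |(1 - t) • x| + |t • y| := abs_add_le _ _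
            _ = (1 - t) * |x| + t * |y| := by
                simp only [smul_eq_mul, abs_mul, abs_of_pos h1t, abs_of_pos ht0]
            _ ≤ (1 - t) * S z + t * S z' := by
                have := mul_le_mul_of_nonneg_left hz.2 h1t.le
                have := mul_le_mul_of_nonneg_left hz'.2 ht0.le
                linarith
            _ ≤ _ := h3
        rw [indicator_of_mem (mem_Ioi.mpr hz.1), indicator_of_mem (mem_Ioi.mpr hz'.1),
          indicator_of_mem (mem_Ioi.mpr hpos), if_pos hz.2, if_pos hz'.2, if_pos hS2]
        rw [ENNReal.ofReal_rpow_of_pos (Real.exp_pos _), ENNReal.ofReal_rpow_of_pos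
          (Real.exp_pos _), ← ENNReal.ofReal_mul (by positivity)]
        apply ENNReal.ofReal_le_ofReal
        rw [← Real.exp_mul, ← Real.exp_mul, ← Real.exp_add]
        apply le_of_eq
        congr 1
        simp only [smul_eq_mul]
        ring
      · have : (Ioi (0 : ℝ)).indicator
            (fun z => if |y| ≤ S z then ENNReal.ofReal (Real.exp (-z)) else 0) z' = 0 := by
          by_cases h : 0 < z'
          · rw [indicator_of_mem (mem_Ioi.mpr h), if_neg (fun h2 => hz' ⟨h, h2⟩)]
          · rw [indicator_of_notMem (by simpa using h)]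
        rw [this, ENNReal.zero_rpow_of_pos ht0, mul_zero]
        exact zero_le
    · have : (Ioi (0 : ℝ)).indicator
          (fun z => if |x| ≤ S z then ENNReal.ofReal (Real.exp (-z)) else 0) z = 0 := by
        by_cases h : 0 < z
        · rw [indicator_of_mem (mem_Ioi.mpr h), if_neg (fun h2 => hz ⟨h, h2⟩)]
        · rw [indicator_of_notMem (by simpa using h)]
      rw [this, ENNReal.zero_rpow_of_pos h1t, zero_mul]
      exact zero_le
  · intro x
    unfold PM.ly
    rw [← lint_exp]
    refine lintegral_mono (fun z => ?_)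
    split_ifs
    · exact le_rfl
    · exact zero_le
  · intro x hx
    unfold PM.ly
    rw [← lint_exp]
    refine setLIntegral_congr_fun measurableSet_Ioi (fun z hz => ?_)
    have : S 0 ≤ S z := prof_mono hS (mem_Ici.mpr le_rfl) (mem_Ici.mpr (le_of_lt hz)) (le_of_lt hz)
    rw [if_pos (hx.trans this)]
  · intro C hC x hx
    unfold PM.ly
    rw [setLIntegral_congr_fun (g := fun _ => 0) measurableSet_Ioi (fun z hz => ?_)]
    · simp
    · have := hC z (le_of_lt hz)
      rw [if_neg (by linarith)]

end Pool.Agent.Lib.MP_2d002d_gt.PM.H47
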