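import Pool.Agent.Lib.MP_2d002d_gt.PM.Interfaces
import Pool.Agent.Lib.MP_2d002d_gt.PM.H70.P2

/-!
# Project PM, module VAR: the dual form of the second derivative of a logarithm
-/

set_option autoImplicit false

open MeasureTheory Set Filter Topology

namespace Pool.Agent.Lib.MP_2d002d_gt.PM.H47

open H70

lemma bc_exp {f : ℝ → ℝ} (hf : BC f) : BC (fun z => Real.exp (f z)) := by
  obtain ⟨hc, C, hC⟩ := hf
  refine ⟨Real.continuous_exp.comp_continuousOn hc, Real.exp C, fun z hz => ?_⟩
  rw [abs_of_pos (Real.exp_pos _)]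
  exact Real.exp_le_exp.mpr ((le_abs_self _).trans (hC z hz))

/-- the weighted integral -/
noncomputable def II (E f : ℝ → ℝ) : ℝ := ∫ z in Ioi (0 : ℝ), Real.exp (-z) * (E z * f z)

lemma II_congr {E f g : ℝ → ℝ} (h : ∀ z, 0 < z → f z = g z) : II E f = II E g := by
  unfold II
  refine setIntegral_congr_fun measurableSet_Ioi (fun z hz => ?_)
  change Real.exp (-z) * (E z * f z) = Real.exp (-z) * (E z * g z)
  rw [h z hz]

lemma II_add {E f g : ℝ → ℝ} (hE : BC E) (hf : BC f) (hg : BC g) :
    II E (fun z => f z + g z) = II E f + II E g := by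
  unfold II
  rw [← integral_add (hE.mul hf).integrable (hE.mul hg).integrable]
  refine setIntegral_congr_fun measurableSet_Ioi (fun z _ => ?_)
  simp only
  ring

lemma II_const_mul {E f : ℝ → ℝ} (a : ℝ) : II E (fun z => a * f z) = a * II E f := by
  unfold II
  rw [← integral_const_mul]
  refine setIntegral_congr_fun measurableSet_Ioi (fun z _ => ?_)
  simp only
  ring

/-- the solution of the dual equation -/
lemma dual_exists {l l1 ψ : ℝ → ℝ} (hl : BC l) (hl1 : BC l1)
    (hd : ∀ z, 0 < z → HasDerivAt l (l1 z) z) (hψ : BC ψ)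
    (h0 : II (fun z => Real.exp (l z)) ψ = 0) :
    ∃ c : ℝ → ℝ, c 0 = 0 ∧ BdD c (fun z => -ψ z - c z * (l1 z - 1)) := by
  -- the integrand
  set F : ℝ → ℝ := fun t => Real.exp (-t) * (Real.exp (l t) * ψ t) with hF
  have hFc : ContinuousOn F (Ici 0) :=
    (by fun_prop : Continuous (fun z : ℝ => Real.exp (-z))).continuousOn.mul
      ((bc_exp hl).mul hψ).1
  set Fm : ℝ → ℝ := fun t => F (max t 0) with hFm
  have hFmc : Continuous Fm := by
    have : Continuous (fun t : ℝ => max t 0) := by fun_prop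
    exact hFc.comp_continuous this (fun t => mem_Ici.mpr (le_max_right _ _))
  have hFm' : ∀ t, 0 ≤ t → Fm t = F t := by
    intro t ht
    simp only [hFm, max_eq_left ht]
  set G : ℝ → ℝ := fun z => ∫ t in (0 : ℝ)..z, Fm t with hG
  have hGd : ∀ z, HasDerivAt G (Fm z) z := fun z =>
    intervalIntegral.integral_hasDerivAt_right (hFmc.intervalIntegrable _ _)
      (hFmc.stronglyMeasurableAtFilter _ _) hFmc.continuousAt
  have hGc : Continuous G := continuous_iff_continuousAt.mpr (fun z => (hGd z).continuousAt)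
  -- bound for `G`
  obtain ⟨M, hM⟩ := ((bc_exp hl).mul hψ).2
  have hint : IntegrableOn F (Ioi 0) := ((bc_exp hl).mul hψ).integrable
  have hGb : ∀ z, 0 ≤ z → |G z| ≤ M * Real.exp (-z) := by
    intro z hz
    have hz1 : IntegrableOn F (Ioi z) := hint.mono_set (Ioi_subset_Ioi hz)
    have h1 : (∫ t in (0 : ℝ)..z, F t) + ∫ t in Ioi z, F t = ∫ t in Ioi (0 : ℝ), F t :=
      intervalIntegral.integral_interval_add_Ioi hint hz1
    have h2 : ∫ t in Ioi (0 : ℝ), F t = 0 := h0
    have h3 : G z = ∫ t in (0 : ℝ)..z, F t := by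
      refine intervalIntegral.integral_congr (fun t ht => ?_)
      rw [uIcc_of_le hz] at ht
      exact hFm' t ht.1
    have h4 : G z = -∫ t in Ioi z, F t := by
      rw [h3]; linarith
    rw [h4, abs_neg]
    calc |∫ t in Ioi z, F t| ≤ ∫ t in Ioi z, |F t| := abs_integral_le_integral_abs
      _ ≤ ∫ t in Ioi z, M * Real.exp (-t) := by
          refine setIntegral_mono_on hz1.abs ?_ measurableSet_Ioi (fun t ht => ?_)
          · exact (integrableOn_exp_neg.mono_set (Ioi_subset_Ioi hz)).const_mul M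
          · have ht0 : 0 ≤ t := hz.trans (le_of_lt ht)
            have := hM t ht0
            simp only [hF]
            rw [abs_mul, abs_of_pos (Real.exp_pos _), mul_comm]
            exact mul_le_mul_of_nonneg_right this (Real.exp_pos _).le
      _ = M * Real.exp (-z) := by
          rw [integral_const_mul, integral_exp_neg_Ioi]
  obtain ⟨L, hL⟩ := hl.2
  -- the solution
  set c : ℝ → ℝ := fun z => -(Real.exp (z - l z)) * G z with hc
  have hM0 : 0 ≤ M := (abs_nonneg _).trans (hM 0 le_rfl)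
  have hcb : BC c := by
    refine ⟨?_, Real.exp L * M, fun z hz => ?_⟩
    · refine ContinuousOn.mul (ContinuousOn.neg ?_) hGc.continuousOn
      exact Real.continuous_exp.comp_continuousOn (continuousOn_id.sub hl.1)
    · simp only [hc]
      rw [abs_mul, abs_neg, abs_of_pos (Real.exp_pos _)]
      calc Real.exp (z - l z) * |G z| ≤ Real.exp (z - l z) * (M * Real.exp (-z)) :=
            mul_le_mul_of_nonneg_left (hGb z hz) (Real.exp_pos _).le
        _ = Real.exp (-l z) * M := by
            rw [show Real.exp (z - l z) * (M * Real.exp (-z)) =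
              (Real.exp (z - l z) * Real.exp (-z)) * M by ring, ← Real.exp_add]
            congr 2; ring
        _ ≤ Real.exp L * M := by
            refine mul_le_mul_of_nonneg_right (Real.exp_le_exp.mpr ?_) hM0
            exact (neg_le_abs _).trans (hL z hz)
  refine ⟨c, ?_, hcb, ?_, ?_⟩
  · simp [hc, hG]
  · exact hψ.neg.sub (hcb.mul (hl1.sub (BC.const 1)))
  · intro z hz
    have h1 : HasDerivAt (fun z => -(Real.exp (z - l z))) (-(Real.exp (z - l z) * (1 - l1 z))) z :=
      (((hasDerivAt_id z).sub (hd z hz)).exp).neg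
    have h2 := h1.mul (hGd z)
    refine h2.congr_deriv ?_
    rw [hFm' z hz.le]
    simp only [hc, hF]
    have h3 : Real.exp (z - l z) * (Real.exp (-z) * (Real.exp (l z) * ψ z)) = ψ z := by
      rw [← mul_assoc, ← mul_assoc, ← Real.exp_add, ← Real.exp_add]
      rw [show z - l z + -z + l z = 0 by ring, Real.exp_zero, one_mul]
    linear_combination -h3

theorem var : VAR_S := by
  rintro l l1 l2 g g1 A B ⟨hl, hl1, hdl⟩ ⟨-, hl2, hdl1⟩ ⟨hg, hg1, hdg⟩ hA H
  replace hl : BC l := hl
  replace hl1 : BC l1 := hl1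
  replace hl2 : BC l2 := hl2
  replace hg : BC g := hg
  replace hg1 : BC g1 := hg1
  replace hA : BC A := hA
  set E : ℝ → ℝ := fun z => Real.exp (l z) with hE
  have hEb : BC E := bc_exp hl
  have hEd : ∀ z, 0 < z → HasDerivAt E (E z * l1 z) z := fun z hz => (hdl z hz).exp
  have conv : ∀ f : ℝ → ℝ, ∫ z in Ioi (0 : ℝ), Real.exp (l z - z) * f z = II E f := by
    intro f
    unfold II
    refine setIntegral_congr_fun measurableSet_Ioi (fun z _ => ?_)
    simp only [hE]
    rw [← mul_assoc, ← Real.exp_add]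
    congr 2; ring
  have conv1 : ∫ z in Ioi (0 : ℝ), Real.exp (l z - z) = II E (fun _ => 1) := by
    rw [← conv]; simp
  -- `Z > 0`
  set Z : ℝ := II E (fun _ => 1) with hZ
  have hZpos : 0 < Z := by
    obtain ⟨L, hL⟩ := hl.2
    have h1 : Real.exp (-L) * ∫ z in Ioi (0 : ℝ), Real.exp (-z) ≤ Z := by
      rw [hZ]
      unfold II
      rw [← integral_const_mul]
      refine setIntegral_mono_on (integrableOn_exp_neg.const_mul _)
        (hEb.mul (BC.const 1)).integrable measurableSet_Ioi (fun z hz => ?_)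
      rw [mul_one, mul_comm]
      refine mul_le_mul_of_nonneg_left ?_ (Real.exp_pos _).le
      exact Real.exp_le_exp.mpr (by
        have := hL z (le_of_lt hz)
        have := neg_abs_le (l z)
        linarith)
    rw [integral_exp_neg_Ioi_zero, mul_one] at h1
    exact lt_of_lt_of_le (Real.exp_pos _) h1
  rw [conv, conv, conv1]
  set b : ℝ := II E g / Z with hb
  set ψ : ℝ → ℝ := fun z => g z - b with hψ
  have hψb : BC ψ := hg.sub (BC.const b)
  have hψ0 : II E ψ = 0 := by
    have h1 : II E ψ = II E g + II E (fun _ => (-b) * 1) := by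
      rw [← II_add hEb hg (BC.const _)]
      exact II_congr (fun z _ => by simp only [hψ]; ring)
    rw [h1, II_const_mul, ← hZ, hb]
    field_simp
    ring
  obtain ⟨c, hc0, hc⟩ := dual_exists hl hl1 hdl hψb hψ0
  obtain ⟨hcb, hc1b, hcd⟩ := hc
  set c1 : ℝ → ℝ := fun z => -ψ z - c z * (l1 z - 1) with hc1
  replace hcb : BC c := hcb
  replace hc1b : BC c1 := hc1b
  have hH := H c c1 ⟨hcb, hc1b, hcd⟩ hc0
  rw [conv, conv1] at hH
  -- first identity
  have e1 : II E (fun z => c z * g1 z - ψ z ^ 2) = 0 := by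
    have hf : BC (fun z => E z * (c z * ψ z)) := hEb.mul (hcb.mul hψb)
    have hf' : BC (fun z => E z * l1 z * (c z * ψ z) + E z * (c1 z * ψ z + c z * g1 z)) :=
      ((hEb.mul hl1).mul (hcb.mul hψb)).add (hEb.mul ((hc1b.mul hψb).add (hcb.mul hg1)))
    have h := integral_exp_deriv hf hf' (fun z hz => by
      have hψd : HasDerivAt ψ (g1 z) z := (hdg z hz).sub_const b
      exact (hEd z hz).mul ((hcd z hz).mul hψd))
    rw [hc0] at h
    simp only [zero_mul, mul_zero, neg_zero] at h
    rw [← h]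
    unfold II
    refine setIntegral_congr_fun measurableSet_Ioi (fun z _ => ?_)
    simp only [hc1]
    ring
  -- second identity
  have e2 : II E (fun z => c z ^ 2 * (l1 z - 1) ^ 2 + 2 * (c z * c1 z * (l1 z - 1)) +
      c z ^ 2 * l2 z) = 0 := by
    have hf : BC (fun z => E z * (c z * c z * (l1 z - 1))) :=
      hEb.mul ((hcb.mul hcb).mul (hl1.sub (BC.const 1)))
    have hf' : BC (fun z => E z * l1 z * (c z * c z * (l1 z - 1)) +
        E z * ((c1 z * c z + c z * c1 z) * (l1 z - 1) + c z * c z * l2 z)) :=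
      ((hEb.mul hl1).mul ((hcb.mul hcb).mul (hl1.sub (BC.const 1)))).add
        (hEb.mul ((((hc1b.mul hcb).add (hcb.mul hc1b)).mul (hl1.sub (BC.const 1))).add
          ((hcb.mul hcb).mul hl2)))
    have h := integral_exp_deriv hf hf' (fun z hz => by
      have hl1d : HasDerivAt (fun z => l1 z - 1) (l2 z) z := (hdl1 z hz).sub_const 1
      exact (hEd z hz).mul (((hcd z hz).mul (hcd z hz)).mul hl1d))
    rw [hc0] at h
    simp only [zero_mul, mul_zero, neg_zero] at h
    rw [← h]
    unfold II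
    refine setIntegral_congr_fun measurableSet_Ioi (fun z _ => ?_)
    ring
  have bψ2 : BC (fun z => ψ z ^ 2) := hψb.pow 2
  have bT1 : BC (fun z => c z * g1 z - ψ z ^ 2) := (hcb.mul hg1).sub bψ2
  have bT2 : BC (fun z => c z ^ 2 * (l1 z - 1) ^ 2 + 2 * (c z * c1 z * (l1 z - 1)) +
      c z ^ 2 * l2 z) :=
    (((hcb.pow 2).mul ((hl1.sub (BC.const 1)).pow 2)).add
      ((BC.const 2).mul ((hcb.mul hc1b).mul (hl1.sub (BC.const 1))))).add ((hcb.pow 2).mul hl2)
  have e3 : II E (fun z => A z + 2 * c z * g1 z + c z ^ 2 * l2 z - c1 z ^ 2) =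
      II E A + II E (fun z => ψ z ^ 2) := by
    have h1 : II E (fun z => A z + 2 * c z * g1 z + c z ^ 2 * l2 z - c1 z ^ 2) =
        II E (fun z => (A z + ψ z ^ 2) + (2 * (c z * g1 z - ψ z ^ 2) +
          (c z ^ 2 * (l1 z - 1) ^ 2 + 2 * (c z * c1 z * (l1 z - 1)) + c z ^ 2 * l2 z))) :=
      II_congr (fun z _ => by simp only [hc1]; ring)
    rw [h1, II_add hEb (hA.add bψ2) (((BC.const 2).mul bT1).add bT2),
      II_add hEb hA bψ2, II_add hEb ((BC.const 2).mul bT1) bT2, II_const_mul, e1, e2]
    ring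
  have e4 : II E (fun z => ψ z ^ 2) = II E (fun z => g z ^ 2) - (II E g) ^ 2 / Z := by
    have h1 : II E (fun z => ψ z ^ 2) =
        II E (fun z => g z ^ 2 + ((-2 * b) * g z + (b ^ 2) * 1)) :=
      II_congr (fun z _ => by simp only [hψ]; ring)
    rw [h1, II_add hEb (hg.pow 2) (((BC.const _).mul hg).add (BC.const _)),
      II_add hEb ((BC.const _).mul hg) (BC.const _), II_const_mul, II_const_mul, ← hZ, hb]
    field_simp
    ring
  have e5 : II E (fun z => A z + g z ^ 2) = II E A + II E (fun z => g z ^ 2) :=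
    II_add hEb hA (hg.pow 2)
  rw [e5]
  rw [e3, e4] at hH
  have h6 : (II E A + II E (fun z => g z ^ 2)) / Z - (II E g / Z) ^ 2 =
      (II E A + (II E (fun z => g z ^ 2) - (II E g) ^ 2 / Z)) / Z := by
    field_simp
    ring
  rw [h6, div_le_iff₀ hZpos]
  exact hH

end Pool.Agent.Lib.MP_2d002d_gt.PM.H47
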